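import Pool.Agent.X288.LN.ExB3

/-!
# A surface of type B whose modified Derksen invariant is larger than conjectured

Let `Y` be the affine surface with coordinate ring `R = K[x, 1/(1-x), s, v, y]`, where
`x v = s (s+1)` and `x y = (s+1) v²`; we realise it as the subring of `K[[p]][r]` generated by
`x = p²`, `1/(1-p²)`, `s = p³ r`, `v = p r (s+1)` and `y = r² (s+1)³` (so it has an `A₁`
singularity at the origin). Every locally nilpotent derivation of `R` kills `x` and is a multiple of `d/dr`;
it vanishes at the points `x = 0, s = -1` and so `2 s (2 s + 1)` is not in the ideal `I` generated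
by the images. On the other hand `R[u]` has the automorphisms `r ↦ r + δ h`, `u ↦ u - δ p h` with
`h = r + p (u + p r)²`, and they show that `2 s (2 s + 1) u` is in `HD*`. Finally every locally
nilpotent derivation `D` of `R[u]` satisfies `D f = f' D u` on the line `x = s = v = y = 0`, which
shows that `u` is not in `HD*`.
-/

set_option autoImplicit false

open Polynomial Pool.Agent.X288.LN

universe u

namespace Pool.Agent.Results.MP_eab3e1_ag.TypeBCounterexample

theorem exists_example (K O : Type u) [Field K] [CharZero K] [CommRing O] [Algebra K O]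
    [IsDomain O] [CharZero O] (p a : O) (π : O →+* K) (hπ : π p = 0) (hp0 : p ≠ 0)
    (ha : (1 - p ^ 2) * a = 1) :
    ∃ (R : Type u) (_ : CommRing R) (_ : IsDomain R) (_ : Algebra K R),
      Algebra.FiniteType K R ∧ (∃ D : Derivation K R R, IsLND D ∧ D ≠ 0) ∧
      HDstar K R[X] ≠ ⊤ ∧
      ¬ (∀ f : R[X], f ∈ HDstar K R[X] ↔ ∀ i > 0, f.coeff i ∈ imageIdeal K R) := by
  refine ⟨B.R K p a, inferInstance, inferInstance, inferInstance, ?_, B.nonrigid K p a hp0,
    B.HDstar_ne_top K p a π hπ hp0 ha, fun h => ?_⟩
  · rw [← Subalgebra.fg_iff_finiteType, Subalgebra.fg_def]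
    refine ⟨B.gens p a, ?_, rfl⟩
    unfold B.gens
    exact Set.toFinite _
  · have h1 := (h _).1 (B.mem_d K p a) 1 Nat.one_pos
    rw [coeff_C_mul, coeff_X_one, mul_one] at h1
    exact B.f_notMem_imageIdeal K p a π hπ hp0 ha h1

/-- **The theorem.** Over every field `K` of characteristic zero there is a finitely generated
domain `R = K[Y]` which is not rigid and with `HD*(Y × A¹) ≠ K[Y × A¹] = R[X]` (that is, `Y` is of
type B), such that `HD*(Y × A¹)` is not `K[Y] ⊕ ⨁_{i > 0} I uⁱ`, where `I` is the ideal generated
by the images of all locally nilpotent derivations of `K[Y]`. -/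
theorem result (K : Type u) [Field K] [CharZero K] :
    ∃ (R : Type u) (_ : CommRing R) (_ : IsDomain R) (_ : Algebra K R),
      Algebra.FiniteType K R ∧ (∃ D : Derivation K R R, IsLND D ∧ D ≠ 0) ∧
      HDstar K R[X] ≠ ⊤ ∧
      ¬ (∀ f : R[X], f ∈ HDstar K R[X] ↔ ∀ i > 0, f.coeff i ∈ imageIdeal K R) := by
  have : CharZero (PowerSeries K) :=
    charZero_of_injective_algebraMap (algebraMap K (PowerSeries K)).injective
  refine exists_example K (PowerSeries K) PowerSeries.X (1 - PowerSeries.X ^ 2)⁻¹
    PowerSeries.constantCoeff (by simp) PowerSeries.X_ne_zero ?_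
  apply PowerSeries.mul_inv_cancel
  simp

end Pool.Agent.Results.MP_eab3e1_ag.TypeBCounterexample
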